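import Pool.Agent.helper87.X4.Spec

set_option autoImplicit false

namespace Pool.Agent.X4

open Matrix Pool.Agent.PL MeasureTheory intervalIntegral

/-- One parameter groups in a complete normed algebra. -/
theorem OP_abs {M : Type} [NormedRing M] [NormedAlgebra ℝ M] [CompleteSpace M] (f : ℝ → M)
    (hf : Continuous f) (h0 : f 0 = 1) (hadd : ∀ s t, f (s + t) = f s * f t) :
    ∃ X : M, ∀ s : ℝ, f s = NormedSpace.exp (s • X) := by
  set Φ : ℝ → M := fun s => ∫ u in (0:ℝ)..s, f u with hΦ
  have hder : ∀ s, HasDerivAt Φ (f s) s := fun s =>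
    (integral_hasDerivAt_right (hf.intervalIntegrable _ _)
      (hf.stronglyMeasurableAtFilter _ _) hf.continuousAt)
  -- invertibility
  have hunit : ∃ ε : ℝ, IsUnit (Φ ε) := by
    have h1 := (hder 0).tendsto_slope_zero
    have hopen : ∀ᶠ t in nhdsWithin (0:ℝ) {0}ᶜ, IsUnit (t⁻¹ • (Φ (0 + t) - Φ 0)) := by
      refine h1.eventually ?_
      have : IsOpen {x : M | IsUnit x} := Units.isOpen
      refine this.mem_nhds ?_
      simp [h0]
    have hne : ∀ᶠ t in nhdsWithin (0:ℝ) {0}ᶜ, t ≠ 0 := eventually_mem_nhdsWithin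
    obtain ⟨t, ht, ht0⟩ := (hopen.and hne).exists
    refine ⟨t, ?_⟩
    have hΦ0 : Φ 0 = 0 := by simp [hΦ]
    rw [zero_add, hΦ0, sub_zero] at ht
    have h2 : Φ t = (t • (1 : M)) * (t⁻¹ • Φ t) := by
      rw [smul_mul_smul_comm, mul_inv_cancel₀ ht0, one_mul, one_smul]
    rw [h2]
    refine IsUnit.mul ?_ ht
    exact (isUnit_one).smul (Units.mk0 t ht0)
  obtain ⟨ε, u, hu⟩ := hunit
  have hshift : ∀ s, f s * Φ ε = Φ (s + ε) - Φ s := by
    intro s
    have e1 : f s * Φ ε = ∫ u in (0:ℝ)..ε, f (s + u) := by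
      simp only [hΦ, hadd]
      exact ((ContinuousLinearMap.mul ℝ M (f s)).intervalIntegral_comp_comm
        (hf.intervalIntegrable (μ := volume) 0 ε)).symm
    rw [e1, intervalIntegral.integral_comp_add_left]
    simp only [hΦ, add_zero]
    rw [← intervalIntegral.integral_interval_sub_left (hf.intervalIntegrable _ _)
      (hf.intervalIntegrable _ _)]
  have hf2 : ∀ s, f s = (Φ (s + ε) - Φ s) * (↑u⁻¹ : M) := by
    intro s
    rw [← hshift s, ← hu, Units.mul_inv_cancel_right]
  set X : M := (f ε - 1) * (↑u⁻¹ : M) with hX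
  have hfd : ∀ s, HasDerivAt f (f s * X) s := by
    intro s
    have e2 : HasDerivAt (fun s => (Φ (s + ε) - Φ s) * (↑u⁻¹ : M)) ((f (s + ε) - f s) * (↑u⁻¹ : M)) s := by
      refine HasDerivAt.mul_const ?_ _
      refine HasDerivAt.sub ?_ (hder s)
      exact (hder (s + ε)).comp_add_const s ε
    have e3 : (fun s => (Φ (s + ε) - Φ s) * (↑u⁻¹ : M)) = f := by
      funext s
      exact (hf2 s).symm
    rw [e3] at e2
    have e4 : (f (s + ε) - f s) * (↑u⁻¹ : M) = f s * X := by
      rw [hX, hadd]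
      noncomm_ring
    rw [e4] at e2
    exact e2
  refine ⟨X, fun s => ?_⟩
  have hg : ∀ s, HasDerivAt (fun s : ℝ => f s * NormedSpace.exp (s • (-X))) 0 s := by
    intro s
    have e5 := (hfd s).mul (hasDerivAt_exp_smul_const' (𝕂 := ℝ) (-X) s)
    have e6 : f s * X * NormedSpace.exp (s • (-X)) + f s * (-X * NormedSpace.exp (s • (-X))) = 0 := by
      noncomm_ring
    rw [e6] at e5
    exact e5
  have hconst : ∀ s, f s * NormedSpace.exp (s • (-X)) = 1 := by
    intro s
    have e7 := is_const_of_deriv_eq_zero (𝕜 := ℝ) (f := fun s : ℝ => f s * NormedSpace.exp (s • (-X)))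
      (fun s => (hg s).differentiableAt) (fun s => (hg s).deriv) s 0
    simp only [h0, zero_smul, NormedSpace.exp_zero, mul_one] at e7
    exact e7
  let _ : NormedAlgebra ℚ M := NormedAlgebra.restrictScalars ℚ ℝ M
  have h3 : NormedSpace.exp (s • (-X)) * NormedSpace.exp (s • X) = 1 := by
    rw [← NormedSpace.exp_add_of_commute]
    · simp
    · simp only [smul_neg]
      exact (Commute.refl _).neg_left
  calc f s = f s * (NormedSpace.exp (s • (-X)) * NormedSpace.exp (s • X)) := by rw [h3, mul_one]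
    _ = NormedSpace.exp (s • X) := by rw [← mul_assoc, hconst, one_mul]

set_option backward.isDefEq.respectTransparency false in
open scoped Matrix.Norms.Operator in
/-- Row OP. -/
theorem OP : OP_stmt := by
  intro N h hc
  have h1 : Continuous (fun s : ℝ => h (Circle.exp s)) := hc.comp Circle.exp.continuous
  obtain ⟨X, hX⟩ := OP_abs (M := Matrix (Fin N) (Fin N) ℝ) (fun s : ℝ => h (Circle.exp s)) h1
    (by simp) (fun s t => by simp [Circle.exp_add])
  exact ⟨X, hX⟩

end Pool.Agent.X4
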